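import Mathlib

/-!
# The group generated by the horizontal class transpositions has infinite width

`classTransposition k i j` interchanges the residue classes `i (mod k)` and `j (mod k)` by
translation.  Products of at most `n` of these involutions do not exhaust the group they generate.

Idea: a class transposition whose modulus divides `L` maps every block `[m L, (m + 1) L)` to itself,
and a class transposition of modulus `k` moves only the proportion `2 / k` of the integers.  So a
product of at most `n` class transpositions maps some block of length `L = (2n)!` partly to itself,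
while the group contains a permutation with all displacements equal to `± L`.
-/

set_option autoImplicit false

namespace Pool.Agent.Results.MP_9704e3_al.InfiniteWidth

/-- The map `ℤ → ℤ` underlying the class transposition `τ_{i(k), j(k)}`. -/
def classMap (k i j : ℤ) (n : ℤ) : ℤ :=
  if n % k = i then n + (j - i) else if n % k = j then n - (j - i) else n

lemma classMap_involutive {k i j : ℤ} (hi : 0 ≤ i) (hij : i < j) (hjk : j < k) :
    Function.Involutive (classMap k i j) := by
  have key : ∀ n r s : ℤ, 0 ≤ r → r < k → 0 ≤ s → s < k → n % k = r → (n + (s - r)) % k = s := by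
    intro n r s _ _ hs hsk hn
    have h1 := Int.emod_add_mul_ediv n k
    have h2 : n + (s - r) = s + k * (n / k) := by rw [← hn]; linarith
    rw [h2, Int.add_mul_emod_self_left, Int.emod_eq_of_lt hs hsk]
  intro n
  unfold classMap
  by_cases h1 : n % k = i
  · have h2 := key n i j hi (by omega) (by omega) hjk h1
    rw [if_pos h1, if_neg (by omega), if_pos h2]
    ring
  · by_cases h2 : n % k = j
    · have h3 := key n j i (by omega) hjk hi (by omega) h2
      have h4 : n - (j - i) = n + (i - j) := by ring
      rw [if_neg h1, if_pos h2, h4, if_pos h3]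
      ring
    · rw [if_neg h1, if_neg h2, if_neg h1, if_neg h2]

/-- The horizontal class transposition `τ_{i(k), j(k)}`, `0 ≤ i < j < k`: it interchanges the
residue classes `i + kℤ` and `j + kℤ` by translation and fixes every other integer. -/
def classTransposition (k i j : ℤ) (hi : 0 ≤ i) (hij : i < j) (hjk : j < k) : Equiv.Perm ℤ :=
  (classMap_involutive hi hij hjk).toPerm

/-- The set `H` of all horizontal class transpositions. -/
def horizontal : Set (Equiv.Perm ℤ) :=
  {σ | ∃ (k i j : ℤ) (hi : 0 ≤ i) (hij : i < j) (hjk : j < k), σ = classTransposition k i j hi hij hjk}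

/-- The group `CT_∞` generated by the horizontal class transpositions. -/
def CTinf : Subgroup (Equiv.Perm ℤ) := Subgroup.closure horizontal

/-- `σ` is a class transposition of modulus `k` -/
def IsCT (k : ℤ) (σ : Equiv.Perm ℤ) : Prop :=
  ∃ (i j : ℤ) (hi : 0 ≤ i) (hij : i < j) (hjk : j < k), σ = classTransposition k i j hi hij hjk

lemma IsCT.pos {k : ℤ} {σ : Equiv.Perm ℤ} (h : IsCT k σ) : 2 ≤ k := by
  obtain ⟨i, j, hi, hij, hjk, _⟩ := h
  omega

lemma IsCT.period {k : ℤ} {σ : Equiv.Perm ℤ} (h : IsCT k σ) {P : ℤ} (hP : k ∣ P) (x : ℤ) :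
    σ (x + P) = σ x + P := by
  obtain ⟨i, j, hi, hij, hjk, rfl⟩ := h
  obtain ⟨c, rfl⟩ := hP
  show classMap k i j _ = classMap k i j _ + _
  unfold classMap
  rw [Int.add_mul_emod_self_left]
  split_ifs <;> ring

/-- a class transposition of modulus dividing `L` preserves the blocks of length `L` -/
lemma IsCT.block {k : ℤ} {σ : Equiv.Perm ℤ} (h : IsCT k σ) {L : ℤ} (hL : k ∣ L) (hL0 : 0 < L)
    (x : ℤ) : σ x / L = x / L := by
  have hk := h.pos
  obtain ⟨i, j, hi, hij, hjk, rfl⟩ := h
  obtain ⟨c, rfl⟩ := hL
  have hc : 0 < c := by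
    by_contra hc
    have : k * c ≤ 0 := mul_nonpos_of_nonneg_of_nonpos (by omega) (by omega)
    omega
  have hk0 : 0 < k := by omega
  have h1 : ∀ y : ℤ, y / (k * c) = y / k / c := fun y => (Int.ediv_ediv_of_nonneg hk0.le).symm
  rw [h1, h1]
  congr 1
  show classMap k i j x / k = x / k
  have h2 := Int.emod_add_mul_ediv x k
  have h3 : ∀ r : ℤ, 0 ≤ r → r < k → (r + k * (x / k)) / k = x / k := by
    intro r hr hrk
    rw [Int.add_mul_ediv_left _ _ (by omega), Int.ediv_eq_zero_of_lt hr hrk, zero_add]
  unfold classMap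
  split_ifs with h4 h5
  · have : x + (j - i) = j + k * (x / k) := by rw [← h4]; linarith
    rw [this]; exact h3 j (by omega) hjk
  · have : x - (j - i) = i + k * (x / k) := by
      have : x - (j - i) = x - j + i := by ring
      rw [this, ← h5]; linarith
    rw [this]; exact h3 i hi (by omega)
  · rfl

/-- the points moved by a class transposition -/
lemma IsCT.moved {k : ℤ} {σ : Equiv.Perm ℤ} (h : IsCT k σ) :
    ∃ i j : ℤ, ∀ x, σ x ≠ x → x % k = i ∨ x % k = j := by
  obtain ⟨i, j, hi, hij, hjk, rfl⟩ := h
  refine ⟨i, j, fun x hx => ?_⟩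
  by_contra hc
  rw [not_or] at hc
  apply hx
  show classMap k i j x = x
  unfold classMap
  rw [if_neg hc.1, if_neg hc.2]

/-- the number of elements of a residue class in `[0, P)` -/
lemma card_residue {k P : ℤ} (hk : 0 < k) (hP : k ∣ P) (hP0 : 0 ≤ P) (i : ℤ) :
    k * (((Finset.Ico 0 P).filter (fun x => x % k = i)).card : ℤ) ≤ P := by
  obtain ⟨c, rfl⟩ := hP
  have hc : 0 ≤ c := by
    by_contra hc
    have : k * c < 0 := mul_neg_of_pos_of_neg hk (by omega)
    omega
  have h1 : ((Finset.Ico 0 (k * c)).filter (fun x => x % k = i)).card ≤ (Finset.Ico 0 c).card := by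
    apply Finset.card_le_card_of_injOn (fun x => x / k)
    · intro x hx
      rw [Finset.mem_coe, Finset.mem_filter, Finset.mem_Ico] at hx
      rw [Finset.mem_coe, Finset.mem_Ico]
      exact ⟨Int.ediv_nonneg hx.1.1 hk.le,
        Int.ediv_lt_of_lt_mul hk (by rw [mul_comm]; exact hx.1.2)⟩
    · intro x hx y hy hxy
      rw [Finset.mem_coe, Finset.mem_filter] at hx hy
      have hx1 := Int.emod_add_mul_ediv x k
      have hy1 := Int.emod_add_mul_ediv y k
      simp only at hxy
      rw [← hx1, ← hy1, hx.2, hy.2, hxy]
  rw [Int.card_Ico, sub_zero] at h1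
  have h2 : (((Finset.Ico 0 (k * c)).filter (fun x => x % k = i)).card : ℤ) ≤ c := by
    have := Int.toNat_of_nonneg hc
    omega
  exact mul_le_mul_of_nonneg_left h2 hk.le

/-- `p` commutes with the translation by `P` -/
lemma prod_period {P : ℤ} (l : List (ℤ × Equiv.Perm ℤ)) (hl : ∀ a ∈ l, IsCT a.1 a.2)
    (hP : ∀ a ∈ l, a.1 ∣ P) (x : ℤ) :
    (l.map Prod.snd).prod (x + P) = (l.map Prod.snd).prod x + P := by
  induction l with
  | nil => rfl
  | cons a l ih =>
    rw [List.map_cons, List.prod_cons, Equiv.Perm.mul_apply, Equiv.Perm.mul_apply,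
      ih (fun b hb => hl b (List.mem_cons_of_mem _ hb)) (fun b hb => hP b (List.mem_cons_of_mem _ hb)),
      (hl a List.mem_cons_self).period (hP a List.mem_cons_self)]

lemma period_mul {P : ℤ} (p : Equiv.Perm ℤ) (hp : ∀ x, p (x + P) = p x + P) (m x : ℤ) :
    p (x + P * m) = p x + P * m := by
  induction m using Int.induction_on with
  | zero => simp
  | succ m ih =>
    have : x + P * ((m : ℤ) + 1) = (x + P * m) + P := by ring
    rw [this, hp, ih]; ring
  | pred m ih =>
    have h := hp (x + P * (-(m : ℤ) - 1))
    have e : x + P * (-(m : ℤ) - 1) + P = x + P * (-(m : ℤ)) := by ring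
    rw [e, ih] at h
    linarith

/-- a permutation commuting with the translation by `P` is injective modulo `P` -/
lemma inj_mod {P : ℤ} (p : Equiv.Perm ℤ) (hp : ∀ x, p (x + P) = p x + P) {x y : ℤ}
    (hx : 0 ≤ x ∧ x < P) (hy : 0 ≤ y ∧ y < P) (h : p x % P = p y % P) : x = y := by
  have h1 := Int.emod_add_mul_ediv (p x) P
  have h2 := Int.emod_add_mul_ediv (p y) P
  have h3 : p x = p (y + P * (p x / P - p y / P)) := by
    rw [period_mul p hp]
    linarith [mul_sub P (p x / P) (p y / P)]
  have h4 := p.injective h3
  rw [← Int.emod_eq_of_lt hx.1 hx.2, ← Int.emod_eq_of_lt hy.1 hy.2, h4, Int.add_mul_emod_self_left]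

/-- The main estimate: the number of points of `[0, P)` which a product of `r` class transpositions
moves to another block of length `L`, where `L` is a common multiple of `1, …, K`, is at most
`2 r P / (K + 1)`. -/
lemma main_estimate {P L : ℤ} {K : ℕ} (hP0 : 0 < P) (hL0 : 0 < L)
    (hK : ∀ k : ℤ, 0 < k → k ≤ K → k ∣ L) (l : List (ℤ × Equiv.Perm ℤ))
    (hl : ∀ a ∈ l, IsCT a.1 a.2) (hP : ∀ a ∈ l, a.1 ∣ P) :
    ((K : ℤ) + 1) * (((Finset.Ico 0 P).filter
      (fun x => (l.map Prod.snd).prod x / L ≠ x / L)).card : ℤ) ≤ 2 * P * l.length := by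
  induction l with
  | nil => simp
  | cons a l ih =>
    have hl' : ∀ b ∈ l, IsCT b.1 b.2 := fun b hb => hl b (List.mem_cons_of_mem _ hb)
    have hP' : ∀ b ∈ l, b.1 ∣ P := fun b hb => hP b (List.mem_cons_of_mem _ hb)
    have ih' := ih hl' hP'
    have ha := hl a List.mem_cons_self
    have haP := hP a List.mem_cons_self
    set p := (l.map Prod.snd).prod with hp
    have hper : ∀ x, p (x + P) = p x + P := prod_period l hl' hP'
    -- the new exceptional points
    have h2 : ((K : ℤ) + 1) * (((Finset.Ico 0 P).filter
        (fun x => a.2 (p x) / L ≠ p x / L)).card : ℤ) ≤ 2 * P := by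
      by_cases hk : a.1 ≤ K
      · have : ((Finset.Ico 0 P).filter (fun x => a.2 (p x) / L ≠ p x / L)) = ∅ := by
          apply Finset.filter_false_of_mem
          intro x _
          rw [not_not]
          exact ha.block (hK _ (by have := ha.pos; omega) hk) hL0 _
        rw [this]; simp; omega
      · push Not at hk
        have hk0 : 0 < a.1 := by have := ha.pos; omega
        obtain ⟨i, j, hij⟩ := ha.moved
        have hsub : ((Finset.Ico 0 P).filter (fun x => a.2 (p x) / L ≠ p x / L)).card ≤
            ((Finset.Ico 0 P).filter (fun x => x % a.1 = i ∨ x % a.1 = j)).card := by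
          apply Finset.card_le_card_of_injOn (fun x => p x % P)
          · intro x hx
            rw [Finset.mem_coe, Finset.mem_filter] at hx
            rw [Finset.mem_coe, Finset.mem_filter, Finset.mem_Ico]
            refine ⟨⟨Int.emod_nonneg _ (by omega), Int.emod_lt_of_pos _ hP0⟩, ?_⟩
            rw [Int.emod_emod_of_dvd _ haP]
            apply hij
            intro h
            exact hx.2 (by rw [h])
          · intro x hx y hy hxy
            rw [Finset.mem_coe, Finset.mem_filter, Finset.mem_Ico] at hx hy
            exact inj_mod p hper hx.1 hy.1 hxy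
        have hor : ((Finset.Ico 0 P).filter (fun x => x % a.1 = i ∨ x % a.1 = j)).card ≤
            ((Finset.Ico 0 P).filter (fun x => x % a.1 = i)).card +
              ((Finset.Ico 0 P).filter (fun x => x % a.1 = j)).card := by
          rw [Finset.filter_or]; exact Finset.card_union_le _ _
        have hi := card_residue hk0 haP hP0.le i
        have hj := card_residue hk0 haP hP0.le j
        have hc : (((Finset.Ico 0 P).filter (fun x => a.2 (p x) / L ≠ p x / L)).card : ℤ) ≤
            (((Finset.Ico 0 P).filter (fun x => x % a.1 = i)).card : ℤ) +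
              (((Finset.Ico 0 P).filter (fun x => x % a.1 = j)).card : ℤ) := by
          exact_mod_cast hsub.trans hor
        calc ((K : ℤ) + 1) * (((Finset.Ico 0 P).filter
              (fun x => a.2 (p x) / L ≠ p x / L)).card : ℤ)
            ≤ a.1 * (((Finset.Ico 0 P).filter (fun x => a.2 (p x) / L ≠ p x / L)).card : ℤ) :=
              mul_le_mul_of_nonneg_right (by omega) (by positivity)
          _ ≤ a.1 * ((((Finset.Ico 0 P).filter (fun x => x % a.1 = i)).card : ℤ) +
              (((Finset.Ico 0 P).filter (fun x => x % a.1 = j)).card : ℤ)) :=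
              mul_le_mul_of_nonneg_left hc hk0.le
          _ ≤ 2 * P := by rw [mul_add]; linarith
    have hsub : ((Finset.Ico 0 P).filter
        (fun x => ((a :: l).map Prod.snd).prod x / L ≠ x / L)).card ≤
        ((Finset.Ico 0 P).filter (fun x => p x / L ≠ x / L)).card +
          ((Finset.Ico 0 P).filter (fun x => a.2 (p x) / L ≠ p x / L)).card := by
      refine le_trans (Finset.card_le_card ?_) (Finset.card_union_le _ _)
      intro x hx
      rw [Finset.mem_filter] at hx
      rw [Finset.mem_union, Finset.mem_filter, Finset.mem_filter]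
      by_cases h : p x / L = x / L
      · right
        refine ⟨hx.1, fun h' => hx.2 ?_⟩
        rw [List.map_cons, List.prod_cons, Equiv.Perm.mul_apply, ← hp, h', h]
      · exact Or.inl ⟨hx.1, h⟩
    have hsub' : (((Finset.Ico 0 P).filter
        (fun x => ((a :: l).map Prod.snd).prod x / L ≠ x / L)).card : ℤ) ≤
        (((Finset.Ico 0 P).filter (fun x => p x / L ≠ x / L)).card : ℤ) +
          (((Finset.Ico 0 P).filter (fun x => a.2 (p x) / L ≠ p x / L)).card : ℤ) := by
      exact_mod_cast hsub
    calc ((K : ℤ) + 1) * _ ≤ ((K : ℤ) + 1) *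
          ((((Finset.Ico 0 P).filter (fun x => p x / L ≠ x / L)).card : ℤ) +
          (((Finset.Ico 0 P).filter (fun x => a.2 (p x) / L ≠ p x / L)).card : ℤ)) :=
          mul_le_mul_of_nonneg_left hsub' (by positivity)
      _ ≤ 2 * P * l.length + 2 * P := by rw [mul_add]; linarith
      _ = 2 * P * ((a :: l).length : ℕ) := by rw [List.length_cons]; push_cast; ring

/-- the elements of the group with large displacement -/
lemma exists_shift {L : ℤ} (hL : 0 < L) :
    ∃ g ∈ CTinf, ∀ x, g x / L ≠ x / L := by
  have key : ∀ m : ℕ, (m : ℤ) ≤ L → ∃ g ∈ CTinf, ∀ x, g x =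
      if x % (2 * L) < m then x + L else if L ≤ x % (2 * L) ∧ x % (2 * L) < L + m then x - L
        else x := by
    intro m
    induction m with
    | zero =>
      intro _
      refine ⟨1, one_mem _, fun x => ?_⟩
      have h0 := Int.emod_nonneg x (by omega : 2 * L ≠ 0)
      have h1 : ¬ x % (2 * L) < ((0 : ℕ) : ℤ) := by push_cast; omega
      have h2 : ¬ (L ≤ x % (2 * L) ∧ x % (2 * L) < L + ((0 : ℕ) : ℤ)) := by push_cast; omega
      rw [if_neg h1, if_neg h2]; rfl
    | succ m ih =>
      intro hm
      push_cast at hm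
      obtain ⟨g, hg, hgx⟩ := ih (by omega)
      refine ⟨classTransposition (2 * L) m (m + L) (by omega) (by omega) (by omega) * g,
        mul_mem (Subgroup.subset_closure ⟨_, _, _, _, _, _, rfl⟩) hg, fun x => ?_⟩
      rw [Equiv.Perm.mul_apply]
      show classMap (2 * L) m (m + L) (g x) = _
      have h0 := Int.emod_nonneg x (by omega : 2 * L ≠ 0)
      have h1 := Int.emod_lt_of_pos x (by omega : 0 < 2 * L)
      have h2 := Int.emod_add_mul_ediv x (2 * L)
      have h3 : ∀ r : ℤ, 0 ≤ r → r < 2 * L → (r + 2 * L * (x / (2 * L))) % (2 * L) = r := by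
        intro r hr hr'
        rw [Int.add_mul_emod_self_left, Int.emod_eq_of_lt hr hr']
      set r := x % (2 * L) with hr
      rw [hgx]
      push_cast
      unfold classMap
      by_cases c1 : r < m
      · rw [if_pos c1]
        have h4 : (x + L) % (2 * L) = r + L := by
          have : x + L = (r + L) + 2 * L * (x / (2 * L)) := by linarith
          rw [this]; exact h3 _ (by omega) (by omega)
        rw [h4, if_neg (by omega), if_neg (by omega), if_pos (by omega)]
      · rw [if_neg c1]
        by_cases c2 : L ≤ r ∧ r < L + m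
        · have h4 : (x - L) % (2 * L) = r - L := by
            have : x - L = (r - L) + 2 * L * (x / (2 * L)) := by linarith
            rw [this]; exact h3 _ (by omega) (by omega)
          rw [if_pos c2, h4, if_neg (by omega), if_neg (by omega), if_neg (by omega),
            if_pos (by omega)]
        · rw [if_neg c2, ← hr]
          by_cases c3 : r = m
          · rw [if_pos c3, if_pos (by omega)]; ring
          · rw [if_neg c3]
            by_cases c4 : r = m + L
            · rw [if_pos c4, if_neg (by omega), if_pos (by omega)]; ring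
            · rw [if_neg c4, if_neg (by omega), if_neg (by omega)]
  obtain ⟨g, hg, hgx⟩ := key L.toNat (by omega)
  refine ⟨g, hg, fun x => ?_⟩
  rw [hgx]
  have h0 := Int.emod_nonneg x (by omega : 2 * L ≠ 0)
  have h1 := Int.emod_lt_of_pos x (by omega : 0 < 2 * L)
  have e1 : (x + L) / L = x / L + 1 := by
    have := Int.add_mul_ediv_right x 1 (by omega : L ≠ 0)
    rwa [one_mul] at this
  have e2 : (x - L) / L = x / L - 1 := by
    have := Int.add_mul_ediv_right x (-1) (by omega : L ≠ 0)
    rw [show x + -1 * L = x - L by ring] at this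
    rw [this]; ring
  rw [Int.toNat_of_nonneg hL.le]
  by_cases c1 : x % (2 * L) < L
  · rw [if_pos c1, e1]; omega
  · rw [if_neg c1, if_pos (by omega), e2]; omega

/-- **The group `CT_∞` has infinite width with respect to the horizontal class transpositions.**
For every `n` some element of `CT_∞` is not a product of at most `n` horizontal class
transpositions. -/
theorem result (n : ℕ) : ∃ g ∈ CTinf, ∀ l : List (Equiv.Perm ℤ),
    (∀ σ ∈ l, σ ∈ horizontal) → l.length ≤ n → l.prod ≠ g := by
  have hL : (0 : ℤ) < ((2 * n).factorial : ℕ) := by exact_mod_cast Nat.factorial_pos _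
  obtain ⟨g, hg, hgx⟩ := exists_shift hL
  refine ⟨g, hg, fun l hl hn hprod => ?_⟩
  -- attach the moduli
  have hlift : ∀ l : List (Equiv.Perm ℤ), (∀ σ ∈ l, σ ∈ horizontal) →
      ∃ l' : List (ℤ × Equiv.Perm ℤ), (∀ a ∈ l', IsCT a.1 a.2) ∧ l'.map Prod.snd = l := by
    intro l
    induction l with
    | nil => exact fun _ => ⟨[], by simp, rfl⟩
    | cons σ l ih =>
      intro h
      obtain ⟨l', h1, h2⟩ := ih (fun τ hτ => h τ (List.mem_cons_of_mem _ hτ))
      obtain ⟨k, i, j, hi, hij, hjk, hσ⟩ := h σ List.mem_cons_self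
      refine ⟨(k, σ) :: l', ?_, by rw [List.map_cons, h2]⟩
      intro a ha
      rw [List.mem_cons] at ha
      rcases ha with rfl | ha
      · exact ⟨i, j, hi, hij, hjk, hσ⟩
      · exact h1 a ha
  obtain ⟨l', hl', rfl⟩ := hlift l hl
  rw [List.length_map] at hn
  set P : ℤ := (l'.map Prod.fst).prod with hP
  have hP0 : 0 < P := by
    rw [hP]
    apply List.prod_pos
    intro a ha
    rw [List.mem_map] at ha
    obtain ⟨b, hb, rfl⟩ := ha
    have := (hl' b hb).pos
    omega
  have hdvd : ∀ a ∈ l', a.1 ∣ P := fun a ha => List.dvd_prod (List.mem_map_of_mem ha)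
  have hK : ∀ k : ℤ, 0 < k → k ≤ ((2 * n : ℕ) : ℤ) → k ∣ (((2 * n).factorial : ℕ) : ℤ) := by
    intro k hk hk'
    obtain ⟨m, rfl⟩ := Int.eq_ofNat_of_zero_le hk.le
    exact Int.natCast_dvd_natCast.2 (Nat.dvd_factorial (by omega) (by omega))
  have h := main_estimate (K := 2 * n) hP0 hL hK l' hl' hdvd
  rw [hprod] at h
  have hall : (Finset.Ico 0 P).filter (fun x => g x / (((2 * n).factorial : ℕ) : ℤ) ≠
      x / (((2 * n).factorial : ℕ) : ℤ)) = Finset.Ico 0 P :=
    Finset.filter_true_of_mem (fun x _ => hgx x)
  rw [hall, Int.card_Ico, sub_zero, Int.toNat_of_nonneg hP0.le] at h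
  push_cast at h
  have h3 : (l'.length : ℤ) ≤ n := by exact_mod_cast hn
  nlinarith

end Pool.Agent.Results.MP_9704e3_al.InfiniteWidth
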